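import Mathlib
import Pool.Agent.V11197.SM.Aff
import Pool.Agent.V11197.SM.Cc

/-!
MP_c7af3c_ag, Q1: points of projective varieties which are combinations of given vectors with
multipliers of small height.

Let `X` be a closed subset of projective `n`-space over the complex numbers, given by forms of degree
at most `d`. The following properties are equivalent.

(a) `X` contains no nonconstant rational curve.

(b) For every `r`, ALL fields `L ⊇ ℂ` and ALL vectors `v_1, …, v_r` over `L`, at most `B(d, r)` points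
of `X(L)` have the form `x = t_1 v_1 + … + t_r v_r` with algebraic numbers `t_j` of ARBITRARY degree
and `h(t_1 : … : t_r) < eps(d, r)`. Here `B(d, r)` and `eps(d, r) > 0` are explicit and independent of
`X`, of `n` and of the number of equations, of the coefficients, of `L` and of the `v_j`.

(c) For all vectors `V_0, …, V_(r-1)` over `ℂ` only finitely many points
`V_0 + ζ V_1 + … + ζ ^ (r-1) V_(r-1)`, `ζ` a root of unity, are on `X`.

They hold if `X` is arithmetically hyperbolic: it is enough that for every finitely generated ring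
`A ⊆ ℂ` only finitely many points of `X` have homogeneous coordinates in `A` which generate the unit
ideal of `A`. They hold if `X` is groupless: it is enough that for one elliptic curve `E` all rational
maps from `E` to `X` are constant.
-/

set_option autoImplicit false

namespace Pool.Agent.Results.MP_c7af3c_ag.SmallMultiplierPoints

open MvPolynomial Pool.Agent.V1153.UG Pool.Agent.V11197.SM
open Pool.Agent.Helper259.AbsHt Pool.Agent.Y215.SP
open Pool.Agent.H533R3.SL (cur)

/-- the bound for the heights of the multipliers -/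
noncomputable def eps (d r : ℕ) : ℝ := epsn ((d + 1) ^ r) / d

/-- the bound for the number of points -/
noncomputable def B (d r : ℕ) : ℕ := 2 ^ r * M0 ((d + 1) ^ r) d r

theorem eps_pos (d r : ℕ) (hd : 1 ≤ d) : 0 < eps d r :=
  div_pos (epsn_pos _ (Nat.one_le_pow _ _ (by omega))) (by exact_mod_cast hd)

variable {n N : ℕ}

/-- (a): every map from the line to `P = 0` given by polynomials is constant -/
def NoRat (P : Fin N → MvPolynomial (Fin (n + 1)) ℂ) : Prop :=
  ∀ p : Fin (n + 1) → Polynomial ℂ, (∀ i, aeval p (P i) = 0) →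
    ∀ s t j l, (p j).eval s * (p l).eval t = (p l).eval s * (p j).eval t

/-- (b): for all `r`, all fields `L ⊇ ℂ` and all vectors `v_j` over `L` there are at most `B(d, r)`
points over `L` on `P = 0` with homogeneous coordinates `∑ t_j v_j`, for algebraic numbers `t_j` with
`h(t_1 : … : t_r) < eps(d, r)` -/
def UniformBound (P : Fin N → MvPolynomial (Fin (n + 1)) ℂ) (d : ℕ) : Prop :=
  ∀ (r : ℕ) (L : Type) [Field L] [Algebra ℂ L] (ι : Qbar →+* L) (v : Fin r → Fin (n + 1) → L),
    {p : Projectivization L (Fin (n + 1) → L) | ∃ t : Fin r → Qbar, absLogHeight t < eps d r ∧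
      ∃ (x : Fin (n + 1) → L) (hx : x ≠ 0), (∀ a, x a = ∑ j, ι (t j) * v j a) ∧
        (∀ i, aeval x (P i) = 0) ∧ p = Projectivization.mk L x hx}.encard ≤ B d r

/-- (c): for all complex vectors `V_j` only finitely many points `∑ ζ ^ j V_j`, `ζ` a root of unity,
are on `P = 0` -/
def RootsFinite (P : Fin N → MvPolynomial (Fin (n + 1)) ℂ) : Prop :=
  ∀ (r : ℕ) (V : Fin r → Fin (n + 1) → ℂ),
    {p : Projectivization ℂ (Fin (n + 1) → ℂ) | ∃ z : ℂ, (∃ q : ℕ, 0 < q ∧ z ^ q = 1) ∧
      ∃ (x : Fin (n + 1) → ℂ) (hx : x ≠ 0), (∀ a, x a = ∑ j : Fin r, z ^ (j : ℕ) * V j a) ∧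
        (∀ i, eval x (P i) = 0) ∧ p = Projectivization.mk ℂ x hx}.Finite

/-- For every ring `A` generated by finitely many complex numbers only finitely many points of `P = 0`
have homogeneous coordinates in `A` which generate the unit ideal of `A`. -/
def ArithFinite (P : Fin N → MvPolynomial (Fin (n + 1)) ℂ) : Prop :=
  ∀ T : Finset ℂ, {p : Projectivization ℂ (Fin (n + 1) → ℂ) | ∃ (x y : Fin (n + 1) → ℂ),
    (∀ j, x j ∈ Algebra.adjoin ℤ (T : Set ℂ)) ∧ (∀ j, y j ∈ Algebra.adjoin ℤ (T : Set ℂ)) ∧
    ∑ j, y j * x j = 1 ∧ (∀ i, eval x (P i) = 0) ∧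
    ∃ hx : x ≠ 0, p = Projectivization.mk ℂ x hx}.Finite

/-- the plane cubic `y² z = x³ + a x z² + b z³` -/
def OnE (a b : ℂ) (x : Fin 3 → ℂ) : Prop :=
  x 1 ^ 2 * x 2 = x 0 ^ 3 + a * x 0 * x 2 ^ 2 + b * x 2 ^ 3

/-- For some elliptic curve `E` in the plane all rational maps from `E` to `P = 0`, given by forms, are
constant. -/
def NoElliptic (P : Fin N → MvPolynomial (Fin (n + 1)) ℂ) : Prop :=
  ∃ a b : ℂ, 4 * a ^ 3 + 27 * b ^ 2 ≠ 0 ∧ ∀ (e : ℕ) (F : Fin (n + 1) → MvPolynomial (Fin 3) ℂ),
    (∀ j, (F j).IsHomogeneous e) →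
    (∀ x, OnE a b x → ∀ i, eval (fun j => eval x (F j)) (P i) = 0) →
    ∀ x y, OnE a b x → OnE a b y → ∀ j l,
      eval x (F j) * eval y (F l) = eval x (F l) * eval y (F j)

theorem ev {s : ℕ} (u : Fin s → ℂ) (H : MvPolynomial (Fin s) ℂ) : eval u H = aeval u H := by
  rw [← MvPolynomial.coe_aeval_eq_eval]
  rfl

/-- nonconstant curves over an extension field give nonconstant curves over the complex numbers -/
theorem const_of_noRat {r : ℕ} (P : Fin N → MvPolynomial (Fin (n + 1)) ℂ) (hno : NoRat P)
    (L : Type) [Field L] [Algebra ℂ L] (c : Fin r → Fin (n + 1) → L) (l : Fin r → ℕ)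
    (hz : ∀ i, aeval (cur c l) (P i) = 0) (i i' : Fin (n + 1)) :
    cur c l i * Polynomial.C (∑ j, c j i') = cur c l i' * Polynomial.C (∑ j, c j i) := by
  classical
  by_contra hne
  have hL : CharZero L := charZero_of_injective_algebraMap (algebraMap ℂ L).injective
  have hev : ∀ a, (cur c l a).eval 1 = ∑ j, c j a := by
    intro a
    unfold cur
    rw [Polynomial.eval_finsetSum]
    refine Finset.sum_congr rfl fun j _ => ?_
    simp
  have hw : ∃ j k, Polynomial.derivative (cur c l j) * cur c l k ≠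
      cur c l j * Polynomial.derivative (cur c l k) := by
    refine ⟨i, i', fun hcon => hne ?_⟩
    by_cases h0 : cur c l i' = 0
    · have h1 : ∑ j, c j i' = 0 := by rw [← hev, h0, Polynomial.eval_zero]
      rw [h0, h1, Polynomial.C_0, mul_zero, zero_mul]
    · obtain ⟨α, β, hβ, hαβ⟩ := prop_of_wronskian (a := cur c l i) (b := cur c l i') h0 hcon
      have h1 := congrArg (fun p => Polynomial.eval 1 p) hαβ
      simp only [Polynomial.eval_mul, Polynomial.eval_C, hev] at h1
      have hC : Polynomial.C β ≠ 0 := by rwa [Ne, Polynomial.C_eq_zero]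
      apply mul_left_cancel₀ hC
      calc Polynomial.C β * (cur c l i * Polynomial.C (∑ j, c j i'))
          = (Polynomial.C β * cur c l i) * Polynomial.C (∑ j, c j i') := by ring
        _ = cur c l i' * Polynomial.C (α * ∑ j, c j i') := by rw [hαβ, Polynomial.C_mul]; ring
        _ = cur c l i' * Polynomial.C (β * ∑ j, c j i) := by rw [h1]
        _ = Polynomial.C β * (cur c l i' * Polynomial.C (∑ j, c j i)) := by
          rw [Polynomial.C_mul]; ring
  obtain ⟨p, -, hp1, -, hp3, -⟩ := special (S := Set.range P) (Q := 1) (G' := 1)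
    (P := cur c l) (by rintro _ ⟨i, rfl⟩; exact hz i)
    ⟨1, 0, one_ne_zero, by rw [map_one, Polynomial.C_1, pow_zero, one_mul]⟩ hw
    (by rw [map_one]; exact one_ne_zero)
  obtain ⟨s, t, j, k, hst⟩ := nc_of_wr hp3
  exact hst (hno p (fun i => hp1 _ ⟨i, rfl⟩) s t j k)

theorem noRat_of_roots (P : Fin N → MvPolynomial (Fin (n + 1)) ℂ) (h : RootsFinite P) :
    NoRat P := by
  classical
  intro p hp s t j l
  by_cases h0 : ∀ a, p a = 0
  · rw [h0 j, h0 l]
  push Not at h0
  obtain ⟨a0, ha0⟩ := h0
  set M := Finset.univ.sup fun a => (p a).natDegree with hM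
  have hdeg : ∀ a, (p a).natDegree < M + 1 := fun a =>
    Nat.lt_succ_of_le (Finset.le_sup (f := fun a => (p a).natDegree) (Finset.mem_univ a))
  refine curve_const (p := p) roots_infinite ha0 (fun z hz hz0 => hz (congrFun hz0 a0))
    ((h (M + 1) fun j a => (p a).coeff j).subset ?_) s t j l
  rintro _ ⟨z, hz, hq, hz0, rfl⟩
  refine ⟨z, hz, _, hz0, fun a => ?_, fun i => ?_, rfl⟩
  · rw [Polynomial.eval_eq_sum_range' (hdeg a),
      ← Fin.sum_univ_eq_sum_range (fun j => (p a).coeff j * z ^ j)]
    exact Finset.sum_congr rfl fun j _ => mul_comm _ _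
  · rw [← Pool.Agent.V1153.UG.eval_aeval, hp i, Polynomial.eval_zero]

theorem noRat_of_arith (P : Fin N → MvPolynomial (Fin (n + 1)) ℂ)
    (hP : ∀ i, ∃ e, (P i).IsHomogeneous e) (h : ArithFinite P) : NoRat P := by
  classical
  intro p hp s t j l
  by_cases h0 : ∀ a, p a = 0
  · rw [h0 j, h0 l]
  push Not at h0
  obtain ⟨a0, ha0⟩ := h0
  -- the common factor
  set g := Submodule.IsPrincipal.generator (Ideal.span (Set.range p)) with hg
  have hgm : g ∈ Ideal.span (Set.range p) := Submodule.IsPrincipal.generator_mem _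
  have hdvd : ∀ a, g ∣ p a := fun a =>
    (Submodule.IsPrincipal.mem_iff_generator_dvd _).1 (Ideal.subset_span ⟨a, rfl⟩)
  choose p' hp' using hdvd
  have hg0 : g ≠ 0 := by
    intro h1
    apply ha0
    rw [hp' a0, h1, zero_mul]
  obtain ⟨b, hb⟩ := Ideal.mem_span_range_iff_exists_fun.1 hgm
  have hb1 : ∑ a, b a * p' a = 1 := by
    apply mul_left_cancel₀ hg0
    rw [mul_one, Finset.mul_sum]
    conv_rhs => rw [← hb]
    refine Finset.sum_congr rfl fun a _ => ?_
    rw [hp' a]
    ring
  have hP' : ∀ i, aeval p' (P i) = 0 := by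
    intro i
    obtain ⟨e, he⟩ := hP i
    have h1 := hp i
    have h2 : p = fun a => g * p' a := funext hp'
    rw [h2, aeval_homog he] at h1
    exact (mul_eq_zero.1 h1).resolve_left (pow_ne_zero _ hg0)
  set M := Finset.univ.sup fun a => max (p' a).natDegree (b a).natDegree with hM
  have hdeg : ∀ a, (p' a).natDegree < M + 1 ∧ (b a).natDegree < M + 1 := fun a => by
    have h1 := Finset.le_sup (f := fun a => max (p' a).natDegree (b a).natDegree)
      (Finset.mem_univ a)
    have h2 : max (p' a).natDegree (b a).natDegree ≤ M := h1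
    have h3 := le_max_left (p' a).natDegree (b a).natDegree
    have h4 := le_max_right (p' a).natDegree (b a).natDegree
    omega
  let T : Finset ℂ := Finset.univ.biUnion fun a : Fin (n + 1) =>
    (Finset.range (M + 1)).image (fun i => (p' a).coeff i) ∪
      (Finset.range (M + 1)).image (fun i => (b a).coeff i)
  have hT : ∀ a i, i < M + 1 → (p' a).coeff i ∈ Algebra.adjoin ℤ (T : Set ℂ) ∧
      (b a).coeff i ∈ Algebra.adjoin ℤ (T : Set ℂ) := by
    intro a i hi
    refine ⟨Algebra.subset_adjoin ?_, Algebra.subset_adjoin ?_⟩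
    · rw [Finset.mem_coe, Finset.mem_biUnion]
      exact ⟨a, Finset.mem_univ _, Finset.mem_union_left _
        (Finset.mem_image_of_mem _ (Finset.mem_range.2 hi))⟩
    · rw [Finset.mem_coe, Finset.mem_biUnion]
      exact ⟨a, Finset.mem_univ _, Finset.mem_union_right _
        (Finset.mem_image_of_mem _ (Finset.mem_range.2 hi))⟩
  have hA : (Set.range fun t : ℕ => (t : ℂ)).Infinite :=
    Set.infinite_range_of_injective Nat.cast_injective
  have hval : ∀ z, ∑ a, (b a).eval z * (p' a).eval z = 1 := by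
    intro z
    have h1 := congrArg (Polynomial.eval z) hb1
    rw [Polynomial.eval_finsetSum, Polynomial.eval_one] at h1
    rw [← h1]
    exact Finset.sum_congr rfl fun a _ => by rw [Polynomial.eval_mul]
  have hne : ∀ z, (fun a => (p' a).eval z) ≠ 0 := by
    intro z h1
    have h2 := hval z
    rw [Finset.sum_eq_zero fun a _ => by
      rw [show (p' a).eval z = 0 from congrFun h1 a, mul_zero]] at h2
    exact zero_ne_one h2
  have hcr := curve_const (p := p') (q := 1) hA one_ne_zero (fun z _ => hne z)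
    ((h T).subset (by
      rintro _ ⟨_, ⟨t, rfl⟩, -, h1, rfl⟩
      refine ⟨_, fun a => (b a).eval (t : ℂ), fun a => ?_, fun a => ?_, hval _, fun i => ?_,
        h1, rfl⟩
      · show (p' a).eval (t : ℂ) ∈ _
        rw [Polynomial.eval_eq_sum_range' (hdeg a).1]
        exact sum_mem fun i hi => mul_mem (hT a i (Finset.mem_range.1 hi)).1
          (pow_mem (natCast_mem _ t) _)
      · show (b a).eval (t : ℂ) ∈ _
        rw [Polynomial.eval_eq_sum_range' (hdeg a).2]
        exact sum_mem fun i hi => mul_mem (hT a i (Finset.mem_range.1 hi)).2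
          (pow_mem (natCast_mem _ t) _)
      · rw [← Pool.Agent.V1153.UG.eval_aeval, hP' i, Polynomial.eval_zero]))
  have h5 := hcr s t j l
  rw [hp' j, hp' l, Polynomial.eval_mul, Polynomial.eval_mul, Polynomial.eval_mul,
    Polynomial.eval_mul]
  linear_combination g.eval s * g.eval t * h5

theorem noRat_of_elliptic (P : Fin N → MvPolynomial (Fin (n + 1)) ℂ)
    (hP : ∀ i, ∃ e, (P i).IsHomogeneous e) (h : NoElliptic P) : NoRat P := by
  classical
  intro p hp s t j l
  obtain ⟨a, b, -, h⟩ := h
  set M := (Finset.univ.sup fun a => (p a).natDegree) + 1 with hM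
  have hdeg : ∀ a, (p a).natDegree < M := fun a =>
    Nat.lt_succ_of_le (Finset.le_sup (f := fun a => (p a).natDegree) (Finset.mem_univ a))
  let F : Fin (n + 1) → MvPolynomial (Fin 3) ℂ := fun a =>
    ∑ i ∈ Finset.range M, C ((p a).coeff i) * (X 0 ^ i * X 2 ^ (M - i))
  have hFh : ∀ a, (F a).IsHomogeneous M := by
    intro a
    refine IsHomogeneous.sum _ _ _ fun i hi => ?_
    have h1 : (X 0 ^ i * X 2 ^ (M - i) : MvPolynomial (Fin 3) ℂ).IsHomogeneous M := by
      have h2 := (isHomogeneous_X_pow (R := ℂ) (0 : Fin 3) i).mul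
        (isHomogeneous_X_pow (R := ℂ) (2 : Fin 3) (M - i))
      rwa [Nat.add_sub_cancel' (Finset.mem_range.1 hi).le] at h2
    have h3 := (isHomogeneous_C (Fin 3) ((p a).coeff i)).mul h1
    rwa [zero_add] at h3
  have hev : ∀ x : Fin 3 → ℂ, ∀ a, eval x (F a) =
      ∑ i ∈ Finset.range M, (p a).coeff i * (x 0 ^ i * x 2 ^ (M - i)) := by
    intro x a
    simp [F, map_sum]
  have hne0 : ∀ x : Fin 3 → ℂ, x 2 ≠ 0 → ∀ a, eval x (F a) =
      x 2 ^ M * (p a).eval (x 0 / x 2) := by
    intro x hx a
    rw [hev, Polynomial.eval_eq_sum_range' (hdeg a), Finset.mul_sum]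
    refine Finset.sum_congr rfl fun i hi => ?_
    have h2 : x 2 ^ M = x 2 ^ i * x 2 ^ (M - i) := by
      rw [← pow_add, Nat.add_sub_cancel' (Finset.mem_range.1 hi).le]
    rw [h2, div_pow]
    field_simp
  have heq0 : ∀ x : Fin 3 → ℂ, x 2 = 0 → ∀ a, eval x (F a) = 0 := by
    intro x hx a
    rw [hev]
    refine Finset.sum_eq_zero fun i hi => ?_
    have h2 : M - i ≠ 0 := by have := Finset.mem_range.1 hi; omega
    rw [hx, zero_pow h2, mul_zero, mul_zero]
  obtain ⟨ys, hys⟩ := IsAlgClosed.exists_pow_nat_eq (s ^ 3 + a * s + b) (n := 2) (by norm_num)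
  obtain ⟨yt, hyt⟩ := IsAlgClosed.exists_pow_nat_eq (t ^ 3 + a * t + b) (n := 2) (by norm_num)
  have h1 := h M F hFh (fun x _ i => by
    obtain ⟨e, he⟩ := hP i
    by_cases hx : x 2 = 0
    · have h2 : (fun a => eval x (F a)) = fun a => (0 : ℂ) * (p a).eval 0 := by
        funext a
        rw [heq0 x hx, zero_mul]
      rw [h2, ev, aeval_homog he, ← ev, ← Pool.Agent.V1153.UG.eval_aeval, hp i,
        Polynomial.eval_zero, mul_zero]
    · have h2 : (fun a => eval x (F a)) = fun a => x 2 ^ M * (p a).eval (x 0 / x 2) := by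
        funext a
        rw [hne0 x hx]
      rw [h2, ev, aeval_homog he, ← ev, ← Pool.Agent.V1153.UG.eval_aeval, hp i,
        Polynomial.eval_zero, mul_zero]) ![s, ys, 1] ![t, yt, 1]
    (by unfold OnE; simp [hys]) (by unfold OnE; simp [hyt]) j l
  have h3 : ∀ (z y : ℂ) (a : Fin (n + 1)), eval ![z, y, 1] (F a) = (p a).eval z := by
    intro z y a
    rw [hne0 ![z, y, 1] (by simp) a]
    simp
  rw [h3, h3, h3, h3] at h1
  exact h1

/-- Let `X` be the closed subset of projective `n`-space over `ℂ` given by the forms `P_i` of degree at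
most `d`. Then `X` contains no nonconstant rational curve if and only if for every `r`, all fields
`L ⊇ ℂ` and all vectors `v_1, …, v_r` over `L` at most `B(d, r)` points of `X(L)` have the form
`∑ t_j v_j`, `t_j` algebraic numbers of arbitrary degree with `h(t_1 : … : t_r) < eps(d, r)`, and if
and only if for all complex vectors `V_j` only finitely many points `∑ ζ ^ j V_j`, `ζ` a root of
unity, are on `X`. This holds if for every finitely generated ring `A ⊆ ℂ` only finitely many points
of `X` have homogeneous coordinates in `A` which generate the unit ideal, and it holds if for one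
elliptic curve `E` all rational maps from `E` to `X` are constant. -/
theorem result (P : Fin N → MvPolynomial (Fin (n + 1)) ℂ) (d : ℕ) (hd : 1 ≤ d)
    (hP : ∀ i, ∃ e, e ≤ d ∧ (P i).IsHomogeneous e) :
    (∀ r, 0 < eps d r) ∧ List.TFAE [NoRat P, UniformBound P d, RootsFinite P] ∧
    (ArithFinite P → NoRat P) ∧ (NoElliptic P → NoRat P) := by
  classical
  have hom : ∀ i, ∃ e, (P i).IsHomogeneous e := fun i => by
    obtain ⟨e, -, he⟩ := hP i
    exact ⟨e, he⟩
  refine ⟨fun r => eps_pos d r hd, ?_, noRat_of_arith P hom, noRat_of_elliptic P hom⟩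
  tfae_have 1 → 2 := by
    intro hno r L _ _ ι v
    refine (Set.encard_le_encard ?_).trans (card_smallOff P d hd hP 1 (fun c l hz hc => by
      obtain ⟨i, i', h⟩ := hc
      exact absurd (const_of_noRat P hno L c l hz i i') h) ι v)
    rintro p ⟨t, ht, x, hx, hxe, hxP, rfl⟩
    have e : x = pt ι v t := funext hxe
    subst e
    exact ⟨t, ht, hxP, by rw [map_one]; exact one_ne_zero, hx, rfl⟩
  tfae_have 2 → 3 := by
    intro h r V
    have halg : Algebra.IsAlgebraic ℚ Qbar := AlgebraicClosure.isAlgebraic ℚ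
    let ι : Qbar →+* ℂ := (IsAlgClosed.lift : Qbar →ₐ[ℚ] ℂ).toRingHom
    refine (Set.finite_of_encard_le_coe (h r ℂ ι V)).subset ?_
    rintro p ⟨z, ⟨q, hq, hz⟩, x, hx, hxe, hxP, rfl⟩
    obtain ⟨y, hy, hyq⟩ := lift_root ι hq hz
    refine ⟨fun j => y ^ (j : ℕ), ?_, x, hx, fun a => ?_, fun i => ?_, rfl⟩
    · rw [height_tors (fun j : Fin r => y ^ (j : ℕ)) q hq fun j => by
        rw [← pow_mul, mul_comm, pow_mul, hyq, one_pow]]
      exact eps_pos d r hd
    · rw [hxe a]
      refine Finset.sum_congr rfl fun j _ => ?_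
      rw [map_pow, hy]
    · rw [← ev]
      exact hxP i
  tfae_have 3 → 1 := noRat_of_roots P
  tfae_finish

end Pool.Agent.Results.MP_c7af3c_ag.SmallMultiplierPoints
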