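import Pool.Agent.V1153.IT.ArC

/-!
# Points given by iterated recurrences in bounded families of varieties

Let `X` be the complement of the hypersurface `Q = 0` in a closed subset of the projective space
`P^n` over a field `L` which can be embedded in the field of complex numbers, where `Q` and the
equations of the closed subset are forms of degree at most `D`; if `Q` is constant, then `X` is
projective. Besides `n` and `D` nothing is fixed.

We consider families of points `x(h)` of `X` over `L`, parametrised by the elements `h` of an
arbitrary group `H`, which are given by iterated recurrences of type `(s, r, e)`: there are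
functions `X_1, ..., X_s` from `H` to the invertible matrices of size `r` over `L` such that the
entries of `X_l(g h) X_l(h)⁻¹` are, for each `g`, polynomials of degree at most `e` in each of the
entries of `X_i(h)` and `X_i(h)⁻¹`, `i < l`, and the coordinates of the vector `x(h)` and
`1 / Q(x(h))` are polynomials of degree at most `e` in each of the entries of all `X_i(h)` and
`X_i(h)⁻¹`. For example, `x(h)` may be the orbit of a point under a linear group, or given by
iterated exponential polynomials.

The theorem says that the finiteness of the number of points in such families is governed by the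
morphisms from the multiplicative group to `X` (over the complex numbers) of bounded degree,
uniformly in all `X`, `L`, `H` and all families. If `X` is projective and groupless, then there are no
nonconstant morphisms from the multiplicative group to `X`.
-/

set_option autoImplicit false

namespace Pool.Agent.Results.MP_c7af3c_ag.UniformIteratedPoints

open MvPolynomial Pool.Agent.V1153.IT
open Pool.Agent.V1153.UG (GmBdd VanGm)
open Pool.Agent.Y377.ST (ptsOff)

/-- The numbers `n` and `D` are fixed.

(1) For each type `(s, r, e)` there is `N` such that for all `L`, all `X`, and all forms `G` of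
degree at most `D` which vanish on the images of the nonconstant morphisms of degree at most `N` from
the multiplicative group to `X` over the complex numbers, each family of points of `X` over `L` given
by iterated recurrences of this type has at most `N` different points outside of `G = 0`.

(2) In particular, if there are no nonconstant morphisms of degree at most `N` from the
multiplicative group to `X` over the complex numbers, then each family of points of `X` over `L` given
by iterated recurrences of this type has at most `N` different points.

(3) The converse: for each `N` there is `e` such that for all `X` over the complex numbers, each form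
`G` which does not vanish on the images of the nonconstant morphisms `G_m → X` of degree at most `N`
does not vanish at infinitely many different points of some family of points of `X` given by iterated
recurrences of type `(1, 1, e)`, parametrised by the group of integers. -/
theorem result (n D : ℕ) :
    (∀ s r e : ℕ, ∃ N : ℕ, ∀ (L : Type) [Field L] (τ : L →+* ℂ)
      (E : Set (MvPolynomial (Fin (n + 1)) L)) (Q G : MvPolynomial (Fin (n + 1)) L),
      (∀ F ∈ E, ∃ a ≤ D, F.IsHomogeneous a) → (∃ a ≤ D, Q.IsHomogeneous a) →
      (∃ a ≤ D, G.IsHomogeneous a) →
      VanGm (Ideal.span (map τ '' E)) (map τ Q) N (map τ G) →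
      ∀ (H : Type) [Group H] (x : H → Fin (n + 1) → L),
        (∀ h, ∀ F ∈ E, eval (x h) F = 0) → IterOff s r e Q x →
          (ptsOff G x).encard ≤ (N : ℕ∞)) ∧
    (∀ s r e : ℕ, ∃ N : ℕ, ∀ (L : Type) [Field L] (τ : L →+* ℂ)
      (E : Set (MvPolynomial (Fin (n + 1)) L)) (Q : MvPolynomial (Fin (n + 1)) L),
      (∀ F ∈ E, ∃ a ≤ D, F.IsHomogeneous a) → (∃ a ≤ D, Q.IsHomogeneous a) →
      (∀ P, ¬ GmBdd (Ideal.span (map τ '' E)) (map τ Q) N P) →
      ∀ (H : Type) [Group H] (x : H → Fin (n + 1) → L),
        (∀ h, ∀ F ∈ E, eval (x h) F = 0) → IterOff s r e Q x →
          {p : Projectivization L (Fin (n + 1) → L) | ∃ (h : H) (h0 : x h ≠ 0),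
            p = Projectivization.mk L (x h) h0}.encard ≤ (N : ℕ∞)) ∧
    ∀ N : ℕ, ∃ e : ℕ, ∀ (I : Ideal (MvPolynomial (Fin (n + 1)) ℂ))
      (Q G : MvPolynomial (Fin (n + 1)) ℂ), (∃ a ≤ D, Q.IsHomogeneous a) → ¬ VanGm I Q N G →
        ∃ x : Multiplicative ℤ → Fin (n + 1) → ℂ,
          (∀ h, ∀ F ∈ I, (∃ m, F.IsHomogeneous m) → eval (x h) F = 0) ∧ IterOff 1 1 e Q x ∧
            (ptsOff G x).Infinite := by
  refine ⟨arith_family n D, fun s r e => ?_, fun N => ?_⟩
  · obtain ⟨N, hN⟩ := arith_family n D s r e
    refine ⟨N, fun L _ τ E Q hE hQ hno H _ x hx hxI => ?_⟩
    refine (Set.encard_le_encard ?_).trans (hN L τ E Q 1 hE hQ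
      ⟨0, Nat.zero_le _, isHomogeneous_one _ _⟩ (fun P hP => absurd hP (hno P)) H x hx hxI)
    rintro p ⟨h, h0, hp⟩
    refine ⟨h, h0, ?_, hp⟩
    rw [map_one]
    exact one_ne_zero
  · obtain ⟨e, he⟩ := arith_conv n D N
    refine ⟨e, fun I Q G hQ hV => ?_⟩
    by_contra hcon
    apply hV
    refine he I Q G hQ fun x hx hxI => ?_
    by_contra hinf
    exact hcon ⟨x, hx, hxI, hinf⟩

end Pool.Agent.Results.MP_c7af3c_ag.UniformIteratedPoints
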